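import Pool.Agent.Lib.MP_1a66bd_gt.Main

/-!
# MP_1a66bd_gt: an almost symplectic structure on a closed symplectic nilmanifold, of every real
dimension `4 j >= 12`, which is not homotopic through non-degenerate forms to a closed form

The manifold is the quotient of `E = ℂ^j × ℂ^j` by a group `Γ` of affine diffeomorphisms. Tensors on
the quotient are the `Γ`-invariant tensors on `E`.
-/

set_option autoImplicit false

namespace Pool.Agent.Results.MP_1a66bd_gt.NilReversed

open scoped ContDiff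
open Pool.Agent.MP1a66bd

section

variable (Γ : Type) {E : Type} [Group Γ] [NormedAddCommGroup E] [NormedSpace ℝ E] [MulAction Γ E]

/-- The group `Γ` acts on `E` freely, properly discontinuously, by smooth maps and with compact
quotient: `Γ \ E` is a closed smooth manifold with universal cover `E`. -/
structure ClosedQuotient (Γ E : Type) [Group Γ] [NormedAddCommGroup E] [NormedSpace ℝ E]
    [MulAction Γ E] : Prop where
  free : ∀ (γ : Γ) (p : E), γ • p = p → γ = 1
  disc : ProperlyDiscontinuousSMul Γ E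
  compact : CompactSpace (Quotient (MulAction.orbitRel Γ E))
  smooth : ∀ γ : Γ, ContDiff ℝ ∞ fun p : E => γ • p

/-- `Γ \ E` is parallelizable: there is a smooth `Γ`-invariant trivialization of the tangent bundle
of `E`. -/
def Parallelizable (Γ E : Type) [Group Γ] [NormedAddCommGroup E] [NormedSpace ℝ E]
    [MulAction Γ E] : Prop :=
  ∃ X : E → (E →L[ℝ] E), ContDiff ℝ ∞ X ∧ (∀ p, Function.Bijective (X p)) ∧
    ∀ (γ : Γ) (p : E), X (γ • p) = (fderiv ℝ (fun q : E => γ • q) p).comp (X p)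

/-- A 2-form on `E` which is invariant under `Γ`, that is a 2-form on `Γ \ E`. -/
def Invariant (τ : E → E [⋀^Fin 2]→L[ℝ] ℝ) : Prop :=
  ∀ (γ : Γ) (p : E), (τ (γ • p)).compContinuousLinearMap (fderiv ℝ (fun q : E => γ • q) p) = τ p

/-- A 2-form which is non-degenerate at every point. -/
def NonDegenerate (τ : E → E [⋀^Fin 2]→L[ℝ] ℝ) : Prop :=
  ∀ p x : E, x ≠ 0 → ∃ y : E, τ p ![x, y] ≠ 0

/-- A (smooth) almost symplectic structure on `Γ \ E`. -/
def AlmostSymplectic (σ : E → E [⋀^Fin 2]→L[ℝ] ℝ) : Prop :=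
  ContDiff ℝ ∞ σ ∧ Invariant Γ σ ∧ NonDegenerate σ

/-- Two 2-forms on `Γ \ E` are homotopic through non-degenerate 2-forms. -/
def Homotopic (σ τ : E → E [⋀^Fin 2]→L[ℝ] ℝ) : Prop :=
  ∃ H : unitInterval → E → E [⋀^Fin 2]→L[ℝ] ℝ,
    (Continuous fun q : unitInterval × E => H q.1 q.2) ∧
    (∀ t, Invariant Γ (H t) ∧ NonDegenerate (H t)) ∧ H 0 = σ ∧ H 1 = τ

/-- A closed form of class `C^1`. -/
def ClosedForm (τ : E → E [⋀^Fin 2]→L[ℝ] ℝ) : Prop := ContDiff ℝ 1 τ ∧ ∀ p, extDeriv τ p = 0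

/-- `Γ \ E` has a (smooth) symplectic form. -/
def HasSymplectic (Γ E : Type) [Group Γ] [NormedAddCommGroup E] [NormedSpace ℝ E]
    [MulAction Γ E] : Prop :=
  ∃ τ : E → E [⋀^Fin 2]→L[ℝ] ℝ, AlmostSymplectic Γ τ ∧ ClosedForm τ

/-- `Γ \ E` has an almost symplectic structure which is not homotopic, through non-degenerate
2-forms, to a closed form. -/
def HasNonIntegrable (Γ E : Type) [Group Γ] [NormedAddCommGroup E] [NormedSpace ℝ E]
    [MulAction Γ E] : Prop :=
  ∃ σ : E → E [⋀^Fin 2]→L[ℝ] ℝ, AlmostSymplectic Γ σ ∧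
    ∀ τ : E → E [⋀^Fin 2]→L[ℝ] ℝ, Homotopic Γ σ τ → ¬ ClosedForm τ

end

/-- `M = Gam j \ Cov j` is a closed parallelizable smooth manifold of dimension `2 (2 j)`; it has a
symplectic form; and it has an almost symplectic structure which is not homotopic, through
non-degenerate 2-forms, to a closed form. -/
theorem result (j : ℕ) [NeZero j] (hj : 3 ≤ j) :
    Module.finrank ℝ (Cov j) = 2 * (2 * j) ∧ ClosedQuotient (Gam j) (Cov j) ∧
      Parallelizable (Gam j) (Cov j) ∧ HasSymplectic (Gam j) (Cov j) ∧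
      HasNonIntegrable (Gam j) (Cov j) := by
  obtain ⟨h1, h2, h3, h4, h5, h6, ⟨τ, a1, a2, a3, a4⟩, σ, b1, b2, b3, b4⟩ := main (j := j) hj
  refine ⟨h1, ⟨h2, h3, h4, h5⟩, h6, ⟨τ, ⟨a1, a2, a3⟩, a1.of_le (by simp), a4⟩, σ, ⟨b1, b2, b3⟩, ?_⟩
  rintro τ' ⟨H, c1, c2, c3, rfl⟩
  exact b4 H c1 c2 c3

end Pool.Agent.Results.MP_1a66bd_gt.NilReversed
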